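import Pool.Agent.Run7.h504.WW3

/-!
# Multiple ergodic averages at displaced times

The times `T n, T ^ (2 n), T ^ (3 n)` of the page are displaced: `T ^ (n + s 1), T ^ (2 n + s 2), T ^ (3 n + s 3)`. The
displacements are members of arbitrary THIN families of small additive energy, for instance values of polynomials. For almost
every point `x`, for almost all the displacements, the averages are those of the characteristic parts of the functions. The
transformations may be different ones, they need neither commute nor be ergodic, and the averages may have arbitrary bounded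
weights, such as the values of further functions along the undisplaced times.

Used from the starting files: the pointwise ergodic theorem for bounded functions (`H165R3.BPE.birkhoff`), the inequality of
van der Corput (`H469R2.NK.vdcH`), the bilinear estimate for families of shifts, the additive energy of polynomial values
(`H373R2.T7.energy_poly`).
-/

set_option autoImplicit false

namespace Pool.Agent.Results.MP_9721b5_an.DisplacedProgressions

open Finset MeasureTheory Filter Topology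
open scoped ComplexConjugate Polynomial

/-- The additive energy of order `p` of the family `s 1, ..., s y`: the number of the solutions of
`s (u 1) + ... + s (u p) = s (v 1) + ... + s (v p)`. -/
def energy (p y : ℕ) (s : ℕ → ℕ) : ℕ :=
  (((Fintype.piFinset fun _ : Fin p => Icc 1 y) ×ˢ (Fintype.piFinset fun _ : Fin p => Icc 1 y)).filter
    (fun q => ∑ i, s (q.1 i) = ∑ i, s (q.2 i))).card

/-- The numbers `s 1, ..., s y` are at most `B N`, and their additive energy of some order `p ≤ h` is at most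
`K y ^ (2 p) / N`. -/
def Spread (h B : ℕ) (K : ℝ) (N y : ℕ) (s : ℕ → ℕ) : Prop :=
  (∀ m ∈ Icc 1 y, s m ≤ B * N) ∧ ∃ p : ℕ, 1 ≤ p ∧ p ≤ h ∧ (energy p y s : ℝ) * N ≤ K * (y : ℝ) ^ (2 * p)

/-- The sum of `w n (∏ j, f j (T j ^ (α j n + t j) x) - ∏ j, e j (T j ^ (α j n + t j) x))` over `1 ≤ n ≤ M`. -/
noncomputable def diff {X : Type*} {k : ℕ} (T : Fin k → X → X) (f e : Fin k → X → ℂ) (x : X) (w : ℕ → ℂ) (α t : Fin k → ℕ)
    (M : ℕ) : ℂ :=
  ∑ n ∈ Icc 1 M, w n * (∏ j, f j ((T j)^[α j * n + t j] x) - ∏ j, e j ((T j)^[α j * n + t j] x))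

open Classical in
/-- For all but at most `ε ∏ j, y j` of the `(m 1, ..., m k)` with `1 ≤ m j ≤ y j`, the weighted averages with the
displacements `s j (m j)` of the products of the `f j` and of the products of the `e j` are `ε` close. -/
def MostClose {X : Type*} {k W : ℕ} (T : Fin k → X → X) (f e : Fin k → X → ℂ) (x : X) (w : Fin W → ℕ → ℂ) (α : Fin k → ℕ)
    (y : Fin k → ℕ) (s : Fin k → ℕ → ℕ) (N : ℕ) (ε : ℝ) : Prop :=
  (((Fintype.piFinset fun j => Icc 1 (y j)).filter fun m =>
    ¬ ∀ l, ∀ M ≤ N, ‖diff T f e x (w l) α (fun j => s j (m j)) M‖ ≤ ε * N).card : ℝ) ≤ ε * ∏ j, (y j : ℝ)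

/-- Displacements from arbitrary spread families. -/
def Displaced {X : Type*} {k : ℕ} (T : Fin k → X → X) (f e : Fin k → X → ℂ) (x : X) : Prop :=
  ∀ (h B W : ℕ) (K ε : ℝ), 0 < ε → ∃ N₀ : ℕ, ∀ N : ℕ, N₀ ≤ N → ∀ (y : Fin k → ℕ) (s : Fin k → ℕ → ℕ),
    (∀ j, Spread h B K N (y j) (s j)) → ∀ α : Fin k → ℕ, (∀ j, 1 ≤ α j ∧ α j ≤ B) →
    ∀ w : Fin W → ℕ → ℂ, (∀ l n, ‖w l n‖ ≤ 1) → MostClose T f e x w α y s N ε

/-- Displacements `P j (m j)`, with nonconstant polynomials `P j` with natural coefficients and with `m j ≤ y j`, where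
`y j ^ deg (P j)` has the order of `N`. -/
def DisplacedPoly {X : Type*} {k : ℕ} (T : Fin k → X → X) (f e : Fin k → X → ℂ) (x : X) : Prop :=
  ∀ (P : Fin k → ℕ[X]), (∀ j, 1 ≤ (P j).natDegree) → ∀ (B R W : ℕ) (ε : ℝ), 0 < ε → ∃ N₀ : ℕ, ∀ N : ℕ, N₀ ≤ N →
    ∀ y : Fin k → ℕ, (∀ j, N ≤ R * y j ^ (P j).natDegree ∧ y j ^ (P j).natDegree ≤ R * N) →
    ∀ α : Fin k → ℕ, (∀ j, 1 ≤ α j ∧ α j ≤ B) → ∀ w : Fin W → ℕ → ℂ, (∀ l n, ‖w l n‖ ≤ 1) →
    MostClose T f e x w α y (fun j m => (P j).eval m) N ε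

lemma poly_of {X : Type*} {k : ℕ} {T : Fin k → X → X} {f e : Fin k → X → ℂ} {x : X} (hd : Displaced T f e x) :
    DisplacedPoly T f e x := by
  intro P hP B R W ε hε
  choose p C hp hC hen using fun j => Pool.Agent.Run7.h504.WW.en_poly (P j) (hP j)
  obtain ⟨N0, hN0⟩ := hd (∑ j, p j) (B + ∑ j, (P j).eval 1 * R) W (R * ∑ j, C j) ε hε
  refine ⟨max N0 1, fun N hN y hy α hα w hw => ?_⟩
  refine hN0 N ((le_max_left _ _).trans hN) y _ (fun j => ⟨fun m hm => ?_, p j, hp j, ?_, ?_⟩) α
    (fun j => ⟨(hα j).1, (hα j).2.trans (Nat.le_add_right _ _)⟩) w hw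
  · have hm1 := mem_Icc.1 hm
    have h1 : (P j).eval m ≤ (P j).eval 1 * m ^ (P j).natDegree := by
      rw [Polynomial.eval_eq_sum_range, Polynomial.eval_eq_sum_range, sum_mul]
      apply sum_le_sum
      intro i hi
      rw [one_pow, mul_one]
      apply Nat.mul_le_mul_left
      exact Nat.pow_le_pow_right hm1.1 (by have := mem_range.1 hi; omega)
    have h2 : (P j).eval 1 * R ≤ ∑ j, (P j).eval 1 * R :=
      single_le_sum (f := fun j => (P j).eval 1 * R) (fun _ _ => Nat.zero_le _) (mem_univ j)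
    calc (P j).eval m ≤ (P j).eval 1 * m ^ (P j).natDegree := h1
      _ ≤ (P j).eval 1 * (R * N) := Nat.mul_le_mul_left _ ((Nat.pow_le_pow_left hm1.2 _).trans (hy j).2)
      _ = ((P j).eval 1 * R) * N := by ring
      _ ≤ (B + ∑ j, (P j).eval 1 * R) * N := Nat.mul_le_mul_right _ (h2.trans (Nat.le_add_left _ _))
  · exact single_le_sum (f := p) (fun _ _ => Nat.zero_le _) (mem_univ j)
  · have hN1 : 1 ≤ N := (le_max_right _ _).trans hN
    have hy1 : 1 ≤ y j := by
      by_contra h0
      have h00 : y j = 0 := by omega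
      have := (hy j).1
      rw [h00, zero_pow (by have := hP j; omega)] at this
      omega
    have h3 := hen j (y j) hy1
    have h4 : (N : ℝ) ≤ R * (y j : ℝ) ^ (P j).natDegree := by exact_mod_cast (hy j).1
    have h5 : C j ≤ ∑ j, C j := single_le_sum (f := C) (fun j _ => (hC j).le) (mem_univ j)
    have h6 : (0 : ℝ) ≤ energy (p j) (y j) (fun m => (P j).eval m) := Nat.cast_nonneg _
    calc (energy (p j) (y j) (fun m => (P j).eval m) : ℝ) * N
        ≤ (energy (p j) (y j) (fun m => (P j).eval m) : ℝ) * (R * (y j : ℝ) ^ (P j).natDegree) :=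
          mul_le_mul_of_nonneg_left h4 h6
      _ = R * ((energy (p j) (y j) (fun m => (P j).eval m) : ℝ) * (y j : ℝ) ^ (P j).natDegree) := by ring
      _ ≤ R * (C j * (y j : ℝ) ^ (2 * p j)) := mul_le_mul_of_nonneg_left h3 (Nat.cast_nonneg _)
      _ ≤ R * ((∑ j, C j) * (y j : ℝ) ^ (2 * p j)) := by gcongr
      _ = R * (∑ j, C j) * (y j : ℝ) ^ (2 * p j) := by ring

/-- (1) Measure preserving maps `T j` of a probability space, functions `f j`, `e j` bounded by `1` such that the conditional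
correlations of `f j - e j` given the invariant sets of `T j` tend to `0` on average: the averages of the products of the
`f j` at displaced times are those of the `e j`, for almost every point, for almost all the displacements.
(2) If `T j` is ergodic and the correlations of `f j` minus its mean tend to `0` on average (any bounded `f j` if `T j` is
weakly mixing), then `e j` may be taken to be the mean of `f j`. -/
theorem result {X : Type*} [MeasurableSpace X] (μ : Measure X) [IsProbabilityMeasure μ] (k : ℕ) (T : Fin k → X → X)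
    (f : Fin k → X → ℂ) (hf : ∀ j, Measurable (f j)) (hf1 : ∀ j x, ‖f j x‖ ≤ 1) :
    (∀ e : Fin k → X → ℂ, (∀ j, MeasurePreserving (T j) μ μ) → (∀ j, Measurable (e j)) → (∀ j x, ‖e j x‖ ≤ 1) →
      (∀ j, Tendsto (fun H : ℕ => (H : ℝ)⁻¹ * ∑ l ∈ range H,
        ∫ x, ‖(μ[fun x => (f j ((T j)^[l] x) - e j ((T j)^[l] x)) * conj (f j x - e j x) |
          MeasurableSpace.invariants (T j)]) x‖ ∂μ) atTop (𝓝 0)) →
      ∀ᵐ x ∂μ, Displaced T f e x ∧ DisplacedPoly T f e x) ∧
    ((∀ j, Ergodic (T j) μ) →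
      (∀ j, Tendsto (fun H : ℕ => (H : ℝ)⁻¹ * ∑ l ∈ range H,
        ‖∫ x, (f j ((T j)^[l] x) - ∫ z, f j z ∂μ) * conj (f j x - ∫ z, f j z ∂μ) ∂μ‖) atTop (𝓝 0)) →
      ∀ᵐ x ∂μ, Displaced T f (fun j _ => ∫ z, f j z ∂μ) x ∧ DisplacedPoly T f (fun j _ => ∫ z, f j z ∂μ) x) := by
  have main : ∀ e : Fin k → X → ℂ, (∀ j, MeasurePreserving (T j) μ μ) → (∀ j, Measurable (e j)) → (∀ j x, ‖e j x‖ ≤ 1) →
      (∀ j, Tendsto (fun H : ℕ => (H : ℝ)⁻¹ * ∑ l ∈ range H,
        ∫ x, ‖(μ[fun x => (f j ((T j)^[l] x) - e j ((T j)^[l] x)) * conj (f j x - e j x) |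
          MeasurableSpace.invariants (T j)]) x‖ ∂μ) atTop (𝓝 0)) →
      ∀ᵐ x ∂μ, Displaced T f e x ∧ DisplacedPoly T f e x := by
    intro e hT he he1 hm
    filter_upwards [Pool.Agent.Run7.h504.WW.displaced μ k T hT f e hf he hf1 he1 hm] with x hx
    have hd : Displaced T f e x := by
      intro h B W K ε hε
      obtain ⟨N0, hN0⟩ := hx h B W K ε hε
      refine ⟨N0, fun N hN y s hs α hα w hw => ?_⟩
      have h1 := hN0 N hN y s hs α hα w hw
      unfold MostClose
      refine le_trans (le_of_eq ?_) h1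
      rw [Pool.Agent.Run7.h504.RM.ct_eq]
      rfl
    exact ⟨hd, poly_of hd⟩
  refine ⟨main, fun hT hm => main _ (fun j => (hT j).toMeasurePreserving) (fun j => measurable_const) (fun j x => ?_)
    (fun j => ?_)⟩
  · refine (norm_integral_le_of_norm_le_const (C := 1) (Eventually.of_forall (hf1 j))).trans ?_
    simp
  · refine (hm j).congr fun H => ?_
    congr 1
    apply sum_congr rfl
    intro l _
    have h1 := Pool.Agent.Run7.h504.WW.condExp_const (hT j)
      (fun x => (f j ((T j)^[l] x) - ∫ z, f j z ∂μ) * conj (f j x - ∫ z, f j z ∂μ))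
    have h2 : (fun x => ‖(μ[fun x => (f j ((T j)^[l] x) - ∫ z, f j z ∂μ) * conj (f j x - ∫ z, f j z ∂μ) |
        MeasurableSpace.invariants (T j)]) x‖) =ᵐ[μ]
        fun _ => ‖∫ x, (f j ((T j)^[l] x) - ∫ z, f j z ∂μ) * conj (f j x - ∫ z, f j z ∂μ) ∂μ‖ := by
      filter_upwards [h1] with x hx
      rw [hx]
    rw [integral_congr_ae h2]
    simp

end Pool.Agent.Results.MP_9721b5_an.DisplacedProgressions
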