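import Pool.Agent.Run7.h484.KG.DiscB

/-!
# Skew products with Kolmogorov fibres over arbitrary systems

`skew σ Φ α` is the map `T (ω, y) = (σ ω, Φ (α ω) y)` of `Ω × Y`: an arbitrary measure preserving
map `σ` of a probability space `(Ω, P)` drives the action `Φ` of a group `G` on a probability space
`(Y, ν)` through an arbitrary function `α : Ω → G`, as in the `T, T⁻¹` transformation. Its powers are
`T^n (ω, y) = (σ^n ω, Φ (α (σ^(n-1) ω) ⋯ α ω) y)`.

* `IsKolmogorovExtension 𝒜 𝒴 ν Φ ℓ`: with respect to the homomorphism `ℓ : G → ℝ` the action is a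
  Kolmogorov extension of its factor `𝒴` with the past `𝒜`: `(Φ g)⁻¹ 𝒜 ⊆ 𝒜` if `ℓ g ≤ 0`, the
  `(Φ g)⁻¹ 𝒜` generate all measurable sets and their intersection is contained in `𝒴`, modulo `ν`.
  For trivial `𝒴` these are the Kolmogorov (`K`-) actions. No rate of mixing is assumed. By Rokhlin
  and Sinai every ergodic invertible map of a standard probability space is a Kolmogorov extension
  of its Pinsker factor (`G = ℤ`, `ℓ n = n`).
* `Dispersed a`: for every `R`, outside a set of density zero, at most `o(N / log N)` of the `n ≤ N`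
  have `a n` in a common interval of length `R`. `Separated a b`: for every `R` the set of the `n`
  with `|a n - b n| < R` has density zero.
* `Spread P σ φ a`: for almost every `ω` the Birkhoff sums `S_n ω = φ ω + ⋯ + φ (σ^(n-1) ω)` are
  dispersed and, for `i ≠ j`, the sequences `S_(a_i n) ω` and `S_(a_j n) ω` are separated.
* `HasRate P σ φ`: for every `R` there is `c > 3` such that
  `∑_{h < N} P (|S_h| < R) = O(N / (log N)^c)`; for example `P (|S_h| < R) = O((log h)^(-c))`, which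
  allows recurrent `S_n` with zero drift. Over every ergodic aperiodic `σ`, for instance over
  irrational rotations, there are integer valued `φ` with zero integral which satisfy the local
  limit theorem, so that `P (|S_h| < R) = O(h^(-1/2))` (Kosloff and Volny).
* `HasDiscreteSpectrum P σ`: linear combinations of bounded eigenfunctions of `σ` are dense, for the
  `L¹` distance, in the bounded measurable functions.
-/

set_option autoImplicit false

open Filter Topology MeasureTheory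
open scoped ENNReal

namespace Pool.Agent.Results.MP_9721b5_an.KolmogorovFibres

/-- The action `Φ` is a Kolmogorov extension, with the past `𝒜`, of its factor `𝒴`. -/
structure IsKolmogorovExtension {Y G : Type} [Group G] (𝒜 𝒴 : MeasurableSpace Y)
    [mY : MeasurableSpace Y] (ν : Measure Y) (Φ : G →* Equiv.Perm Y) (ℓ : G → ℝ) : Prop where
  /-- the action preserves the measure -/
  pres : ∀ g, MeasurePreserving (Φ g) ν ν
  /-- `ℓ` is a homomorphism -/
  hom : ∀ g h, ℓ (g * h) = ℓ g + ℓ h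
  /-- the past consists of measurable sets -/
  past : 𝒜 ≤ mY
  /-- the factor is contained in the past -/
  base : 𝒴 ≤ 𝒜
  /-- the factor is invariant -/
  inv : ∀ g, Measurable[𝒴, 𝒴] (Φ g : Y → Y)
  /-- the past is monotone -/
  mono : ∀ g, ℓ g ≤ 0 → 𝒜.comap (Φ g : Y → Y) ≤ 𝒜
  /-- the images of the past generate everything modulo null sets -/
  gen : ∀ B, MeasurableSet[mY] B →
    ∃ B', MeasurableSet[⨆ g, 𝒜.comap (Φ g : Y → Y)] B' ∧ B =ᵐ[ν] B'
  /-- the tail is contained in the factor modulo null sets -/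
  tail : ∀ B, (∀ g, MeasurableSet[𝒜.comap (Φ g : Y → Y)] B) →
    ∃ B', MeasurableSet[𝒴] B' ∧ B =ᵐ[ν] B'

open Classical in
/-- The set `E` of natural numbers has density zero. -/
def DensityZero (E : Set ℕ) : Prop :=
  Tendsto (fun N : ℕ => (((Finset.Icc 1 N).filter fun n => n ∈ E).card : ℝ) / N) atTop (𝓝 0)

/-- For every `R` there is a set `E` of density zero such that at most `L N = o(N / log N)` of the
`n ∉ E` with `1 ≤ n ≤ N` have `a n` in a given interval of length `R`. -/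
def Dispersed (a : ℕ → ℝ) : Prop :=
  ∀ R : ℝ, ∃ (L : ℕ → ℕ) (E : Set ℕ), DensityZero E ∧
    Tendsto (fun N : ℕ => (L N : ℝ) * Real.log N / N) atTop (𝓝 0) ∧
    ∀ (N : ℕ) (s : ℝ) (T : Finset ℕ),
      (∀ n ∈ T, 1 ≤ n ∧ n ≤ N ∧ n ∉ E ∧ s ≤ a n ∧ a n < s + R) → T.card ≤ L N

/-- For every `R` the distance of `a n` and `b n` is at least `R` outside a set of density zero. -/
def Separated (a b : ℕ → ℝ) : Prop := ∀ R : ℝ, DensityZero {n | |a n - b n| < R}

/-- The Birkhoff sums of `φ` along `σ` are dispersed, and separated along the multiples `a_j n`. -/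
def Spread {Ω : Type} [MeasurableSpace Ω] (P : Measure Ω) (σ : Ω → Ω) (φ : Ω → ℝ) {m : ℕ}
    (a : Fin m → ℕ) : Prop :=
  (∀ᵐ ω ∂P, Dispersed fun n => birkhoffSum σ φ n ω) ∧
    ∀ i j, i ≠ j → ∀ᵐ ω ∂P, Separated (fun n => birkhoffSum σ φ (a i * n) ω)
      fun n => birkhoffSum σ φ (a j * n) ω

/-- The number of expected visits up to the time `N` of the Birkhoff sums of `φ` to a bounded
interval around zero is at most `N / (log N)^c` with some `c > 3`, up to a constant. -/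
def HasRate {Ω : Type} [MeasurableSpace Ω] (P : Measure Ω) (σ : Ω → Ω) (φ : Ω → ℝ) : Prop :=
  ∀ R : ℝ, ∃ c C : ℝ, 3 < c ∧ ∀ N : ℕ, 2 ≤ N →
    ∑ h ∈ Finset.range N, P.real {ω | |birkhoffSum σ φ h ω| < R} ≤ C * N / (Real.log N) ^ c

/-- The map `σ` has discrete spectrum. -/
def HasDiscreteSpectrum {Ω : Type} [MeasurableSpace Ω] (P : Measure Ω) (σ : Ω → Ω) : Prop :=
  ∀ e : Ω → ℂ, Measurable e → (∃ C : ℝ, ∀ x, ‖e x‖ ≤ C) → ∀ ε : ℝ, 0 < ε →
    ∃ (s : ℕ) (c : Fin s → ℂ) (h : Fin s → Ω → ℂ), (∀ i, Measurable (h i) ∧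
      (∃ C : ℝ, ∀ x, ‖h i x‖ ≤ C) ∧ ∃ z : ℂ, ‖z‖ = 1 ∧ ∀ᵐ x ∂P, h i (σ x) = z * h i x) ∧
      ∫ x, ‖e x - ∑ i, c i * h i x‖ ∂P ≤ ε

/-- The skew product `(ω, y) ↦ (σ ω, Φ (α ω) y)`. -/
def skew {Ω Y G : Type} [Group G] (σ : Ω → Ω) (Φ : G →* Equiv.Perm Y) (α : Ω → G) (z : Ω × Y) :
    Ω × Y := (σ z.1, Φ (α z.1) z.2)

/-- The averages of `∏_j f_j (T^{a_j n} z)` over `n = 1, …, N` converge almost everywhere. -/
def Converge {Z : Type} [MeasurableSpace Z] (ρ : Measure Z) (T : Z → Z) {m : ℕ} (a : Fin m → ℕ)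
    (f : Fin m → Z → ℂ) : Prop :=
  ∀ᵐ z ∂ρ, ∃ L : ℂ, Tendsto (fun N : ℕ => (N : ℂ)⁻¹ * ∑ n ∈ Finset.Icc 1 N,
    ∏ j, f j (T^[a j * n] z)) atTop (𝓝 L)

/-- Let `T (ω, y) = (σ ω, Φ (α ω) y)`, where `σ` is an arbitrary measure preserving map and the
action `Φ` is a Kolmogorov extension of its factor `𝒴` with respect to `ℓ : G → ℝ`, let `a_1, …, a_m`
be distinct positive integers, and let the Birkhoff sums of `ℓ ∘ α` be spread.

1. The product of `Ω` and `𝒴` is characteristic: for all `f_j ∈ L^∞(P × ν)` the averages over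
   `n = 1, …, N` of `∏_j f_j (T^{a_j n} z) - ∏_j E(f_j | Ω × 𝒴) (T^{a_j n} z)` tend to zero for
   almost every `z`.
2. Hence if the averages of `∏_j h_j (T^{a_j n} z)` converge almost everywhere for all bounded
   `Ω × 𝒴`-measurable `h_j`, then they converge almost everywhere for all `f_j ∈ L^∞(P × ν)`.
3. If `𝒴` is trivial (that is, if `Φ` is a `K`-action) and the averages of `∏_j h_j (σ^{a_j n} ω)`
   converge almost everywhere for all bounded measurable `h_j` on `Ω`, then those of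
   `∏_j f_j (T^{a_j n} z)` converge almost everywhere for all `f_j ∈ L^∞(P × ν)`.
4. In particular they converge if `𝒴` is trivial and `σ` has discrete spectrum.

The Birkhoff sums are spread if `HasRate P σ (ℓ ∘ α)`. -/
theorem result (m : ℕ) {Ω Y G : Type} [Group G] [mΩ : MeasurableSpace Ω] (P : Measure Ω)
    [IsProbabilityMeasure P] (𝒜 𝒴 : MeasurableSpace Y) [mY : MeasurableSpace Y] (ν : Measure Y)
    [IsProbabilityMeasure ν] (Φ : G →* Equiv.Perm Y) (ℓ : G → ℝ)
    (hY : IsKolmogorovExtension 𝒜 𝒴 ν Φ ℓ) (σ : Ω → Ω) (hσ : MeasurePreserving σ P P) (α : Ω → G)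
    (hα : Measurable fun z : Ω × Y => Φ (α z.1) z.2) (a : Fin m → ℕ) (ha : ∀ j, 0 < a j)
    (hai : Function.Injective a) :
    (Spread P σ (fun ω => ℓ (α ω)) a →
      (∀ f : Fin m → Ω × Y → ℂ, (∀ j, MemLp (f j) ∞ (P.prod ν)) →
        ∀ᵐ z ∂(P.prod ν), Tendsto (fun N : ℕ => (N : ℂ)⁻¹ * ∑ n ∈ Finset.Icc 1 N,
          (∏ j, f j ((skew σ Φ α)^[a j * n] z) -
            ∏ j, ((P.prod ν)[f j | mΩ.prod 𝒴]) ((skew σ Φ α)^[a j * n] z))) atTop (𝓝 0)) ∧
      ((∀ h : Fin m → Ω × Y → ℂ, (∀ j, Measurable[mΩ.prod 𝒴] (h j)) →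
          (∀ j, ∃ C : ℝ, ∀ z, ‖h j z‖ ≤ C) → Converge (P.prod ν) (skew σ Φ α) a h) →
        ∀ f : Fin m → Ω × Y → ℂ, (∀ j, MemLp (f j) ∞ (P.prod ν)) →
          Converge (P.prod ν) (skew σ Φ α) a f) ∧
      (𝒴 = ⊥ → (∀ h : Fin m → Ω → ℂ, (∀ j, Measurable (h j)) →
          (∀ j, ∃ C : ℝ, ∀ z, ‖h j z‖ ≤ C) → Converge P σ a h) →
        ∀ f : Fin m → Ω × Y → ℂ, (∀ j, MemLp (f j) ∞ (P.prod ν)) →
          Converge (P.prod ν) (skew σ Φ α) a f) ∧
      (𝒴 = ⊥ → HasDiscreteSpectrum P σ →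
        ∀ f : Fin m → Ω × Y → ℂ, (∀ j, MemLp (f j) ∞ (P.prod ν)) →
          Converge (P.prod ν) (skew σ Φ α) a f)) ∧
    (Measurable (fun ω => ℓ (α ω)) → HasRate P σ (fun ω => ℓ (α ω)) →
      Spread P σ (fun ω => ℓ (α ω)) a) := by
  have hK : Pool.Agent.TH784.KE.KExt ν 𝒜 𝒴 Φ ℓ :=
    ⟨hY.pres, ⟨hY.hom, hY.past, hY.mono⟩, ⟨hY.base, hY.inv⟩, hY.gen, hY.tail⟩
  have hT : MeasurePreserving (skew σ Φ α) (P.prod ν) (P.prod ν) :=
    Pool.Agent.Run7.h484.KG.skw_mp hY.pres hσ hα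
  refine ⟨fun hs => ?_, fun hm hr => ⟨Pool.Agent.Run7.h484.KG.spread_disp hσ hm hr,
    fun i j hij => ?_⟩⟩
  · have h1 := fun (f : Fin m → Ω × Y → ℂ) (hf : ∀ j, MemLp (f j) ∞ (P.prod ν)) =>
      Pool.Agent.Run7.h484.KG.char_top hK hσ hα ha hs.1 hs.2 hf
    have h2 : (∀ h : Fin m → Ω × Y → ℂ, (∀ j, Measurable[mΩ.prod 𝒴] (h j)) →
          (∀ j, ∃ C : ℝ, ∀ z, ‖h j z‖ ≤ C) → Converge (P.prod ν) (skew σ Φ α) a h) →
        ∀ f : Fin m → Ω × Y → ℂ, (∀ j, MemLp (f j) ∞ (P.prod ν)) →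
          Converge (P.prod ν) (skew σ Φ α) a f := by
      intro hb f hf
      obtain ⟨e, he, heY, -, hz⟩ := h1 f hf
      have hc := hb e heY fun j => (he j).2
      filter_upwards [hz, hc] with z hz hc
      obtain ⟨L, hL⟩ := hc
      refine ⟨0 + L, (hz.add hL).congr fun N => ?_⟩
      rw [← mul_add, ← Finset.sum_add_distrib]
      congr 1
      refine Finset.sum_congr rfl fun n _ => ?_
      exact sub_add_cancel _ _
    have h3 : 𝒴 = ⊥ → (∀ h : Fin m → Ω → ℂ, (∀ j, Measurable (h j)) →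
          (∀ j, ∃ C : ℝ, ∀ z, ‖h j z‖ ≤ C) → Converge P σ a h) →
        ∀ f : Fin m → Ω × Y → ℂ, (∀ j, MemLp (f j) ∞ (P.prod ν)) →
          Converge (P.prod ν) (skew σ Φ α) a f := by
      intro hbot hb
      refine h2 fun h hh hbd => ?_
      have hne : Nonempty Y := by
        by_contra hcon
        rw [not_nonempty_iff] at hcon
        have h4 : ν Set.univ = 1 := measure_univ
        rw [Set.univ_eq_empty_iff.2 hcon, measure_empty] at h4
        exact zero_ne_one h4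
      obtain ⟨y₀⟩ := hne
      subst hbot
      have h5 := fun j => Pool.Agent.Run7.h484.KG.of_bot (hY.base.trans hY.past) (hh j) y₀
      have h6 := hb (fun j ω => h j (ω, y₀)) (fun j => (h5 j).1)
        fun j => (hbd j).imp fun C hC ω => hC _
      have h7 : ∀ᵐ z ∂(P.prod ν), ∃ L : ℂ, Tendsto (fun N : ℕ => (N : ℂ)⁻¹ *
          ∑ n ∈ Finset.Icc 1 N, ∏ j, h j (σ^[a j * n] z.1, y₀)) atTop (𝓝 L) :=
        Measure.quasiMeasurePreserving_fst.ae h6
      filter_upwards [h7] with z hz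
      obtain ⟨L, hL⟩ := hz
      refine ⟨L, hL.congr fun N => ?_⟩
      congr 1
      refine Finset.sum_congr rfl fun n _ => Finset.prod_congr rfl fun j _ => ?_
      have h8 : (skew σ Φ α)^[a j * n] z = (σ^[a j * n] z.1,
          Φ (Pool.Agent.Run7.h484.KG.coc σ α (a j * n) z.1) z.2) :=
        Pool.Agent.Run7.h484.KG.skw_iter σ Φ α (a j * n) z
      rw [h8]
      exact ((h5 j).2 _ _).symm
    refine ⟨fun f hf => ?_, h2, h3, fun hbot hd => h3 hbot fun h hh hbd => ?_⟩
    · obtain ⟨e, -, -, hee, hz⟩ := h1 f hf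
      have h4 : ∀ᵐ z ∂(P.prod ν), ∀ (n : ℕ) (j : Fin m),
          e j ((skew σ Φ α)^[a j * n] z) =
            ((P.prod ν)[f j | mΩ.prod 𝒴]) ((skew σ Φ α)^[a j * n] z) := by
        rw [ae_all_iff]
        intro n
        rw [ae_all_iff]
        intro j
        exact (hT.iterate _).quasiMeasurePreserving.ae (hee j)
      filter_upwards [hz, h4] with z hz hz2
      refine hz.congr fun N => ?_
      congr 1
      refine Finset.sum_congr rfl fun n _ => ?_
      congr 1
      exact Finset.prod_congr rfl fun j _ => hz2 n j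
    · exact Pool.Agent.Run7.h484.KG.disc_base hσ hd a fun j => ⟨hh j, hbd j⟩
  · rcases lt_or_gt_of_ne (fun h => hij (hai h) : a i ≠ a j) with h | h
    · exact Pool.Agent.Run7.h484.KG.spread_sep hσ hm hr h
    · filter_upwards [Pool.Agent.Run7.h484.KG.spread_sep hσ hm hr h] with ω hω
      exact Pool.Agent.Run7.h484.KG.DZn_symm hω

end Pool.Agent.Results.MP_9721b5_an.KolmogorovFibres
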