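import Pool.Agent.Run7.h694.TW.B

/-!
# Cubic (and longer) averages: towers of extensions (MP_9721b5_an)

The files of this folder treat single steps: systems whose tail comes from a Gaussian system and a
Poisson suspension, one Poisson extension, one extension with mixing fibres. Here the steps are
iterated, in any order and any number of times, together with affine maps of compact abelian groups,
toral skew products, inverse limits, mixtures (ergodic decompositions) and roots.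

Notions of the starting library:
* `IsGaussian ν S`: an invertible Gaussian system of any spectral type;
* `IsPoisson κ V ν S`: a Poisson suspension of the map `V` of the (infinite) measure space `(W, κ)`;
  `HasRate κ V`: for `A`, `B` in a dense family of sets of finite measure the averages of
  `κ (A ∩ V^{-n} B)` over the `n < N` off a set of density zero are at most `(log N)^{-c}`, `c > 0`;
* `IsPoissonExtension μ S κ θ ν ψ`: `sk S ψ (x, y) = (S x, ψ x y)` on `(X × Y, μ × ν)` is the Poisson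
  suspension of `(x, w) ↦ (S x, θ x w)` on `(X × W, μ × κ)`, relative to `(X, μ, S)`;
  `SummableOverlaps μ S κ θ`: `∑_h r h / (h + 1) < ∞` for the overlaps `r h` of a dense family of sets;
* `IsMixingExtension K μ S ν ψ`: the fibres of `sk S ψ` are mixing of order `K`, with rates `r` such
  that `∑_h r h / (h + 1) < ∞`;
* `IsExhaustive μ T 𝒜`: `T⁻¹ 𝒜 ⊆ 𝒜`, and for every measurable `B` some `T^{-k} B` is arbitrarily
  close to a set of `𝒜`; `IsTailSet μ T 𝒜 B`: for every `k` the set `B` is of the form `T^{-k} C`,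
  `C ∈ 𝒜`, modulo null sets. (For invertible `T`, a system with an exhaustive `𝒜` whose tail sets come
  from a factor is a Kolmogorov extension of this factor.)
* `skewMap A S φ`: the map `(y, x) ↦ (S y, A x + φ y)` of `Y × 𝕋^d`; `haarT d`: Haar measure of `𝕋^d`;
  `Indep A`: for every `q ≥ 1` the only integer vectors `v j` for which `∑ j, (A jᵀ) ^ (q n) v j` does not
  depend on `n` are zero.
-/

set_option autoImplicit false

open Filter Topology MeasureTheory ProbabilityTheory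
open scoped ENNReal symmDiff

namespace Pool.Agent.Results.MP_9721b5_an.TowersOfExtensions

open Pool.Agent.W761.Tail (IsGaussian IsExhaustive IsTailSet)
open Pool.Agent.TH739.Poi (IsPoisson HasRate)
open Pool.Agent.TH739.PS (IsPoissonExtension SummableOverlaps sk)
open Pool.Agent.TH290.RM (IsMixingExtension)
open Pool.Agent.H922R3.TA (skewMap haarT Indep)

/-- a measure preserving map (not necessarily invertible) of a probability space -/
structure Sys where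
  X : Type
  [ms : MeasurableSpace X]
  μ : Measure X
  [prob : IsProbabilityMeasure μ]
  T : X → X
  mp : MeasurePreserving T μ μ

attribute [instance] Sys.ms Sys.prob

/-- the `k`-th power of a system -/
def Sys.pow (𝕏 : Sys) (k : ℕ) : Sys := ⟨𝕏.X, 𝕏.μ, 𝕏.T^[k], 𝕏.mp.iterate k⟩

/-- the averages `(1/N) ∑_{n=1}^N f_1 (T^n x) f_2 (T^{2n} x) ⋯ f_m (T^{mn} x)` converge for almost every
`x`, for all `f_1, …, f_m` in `L^∞` -/
def Converges (m : ℕ) (𝕏 : Sys) : Prop :=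
  ∀ f : Fin m → 𝕏.X → ℂ, (∀ j, MemLp (f j) ∞ 𝕏.μ) →
    ∀ᵐ x ∂𝕏.μ, ∃ L : ℂ, Tendsto (fun N : ℕ => (N : ℂ)⁻¹ * ∑ n ∈ Finset.Icc 1 N,
      ∏ j : Fin m, f j (𝕏.T^[((j : ℕ) + 1) * n] x)) atTop (𝓝 L)

/-- `π` is a factor map from `𝕏` onto `𝕐` -/
structure IsFactorMap (𝕏 𝕐 : Sys) (π : 𝕏.X → 𝕐.X) : Prop where
  mp : MeasurePreserving π 𝕏.μ 𝕐.μ
  equi : ∀ᵐ x ∂𝕏.μ, π (𝕏.T x) = 𝕐.T (π x)

/-- the tail sets of `𝒜` come from the map `π` -/
def TailFrom (𝕏 : Sys) (𝒜 : MeasurableSpace 𝕏.X) {Z : Type} [MeasurableSpace Z] (π : 𝕏.X → Z) : Prop :=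
  ∀ B, @IsTailSet 𝕏.X 𝕏.ms 𝕏.μ 𝕏.T 𝒜 B → ∃ D, MeasurableSet D ∧ B =ᵐ[𝕏.μ] π ⁻¹' D

/-- The systems which are obtained from the systems of a class `𝒢`, from affine bijections of compact
Hausdorff abelian groups and from products of a Gaussian system and a Poisson suspension with
logarithmic rate by iterating, in any order: factors, tail (Kolmogorov) extensions, Poisson extensions
with summable overlaps, extensions with fibres mixing of order `2 m`, toral skew products, inverse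
limits, mixtures and roots. -/
inductive Tower (m : ℕ) (𝒢 : Sys → Prop) : Sys → Prop
  | ground (𝕏 : Sys) : 𝒢 𝕏 → Tower m 𝒢 𝕏
  | affine {X : Type} [CommGroup X] [TopologicalSpace X] [IsTopologicalGroup X] [CompactSpace X]
      [T2Space X] [MeasurableSpace X] [BorelSpace X] (μ : Measure X) [μ.IsHaarMeasure]
      [IsProbabilityMeasure μ] (T : Equiv.Perm X) (mp : MeasurePreserving T μ μ) :
      (∃ (α : X →ₜ* X) (c : X), ∀ x, T x = α x * c) → Tower m 𝒢 ⟨X, μ, T, mp⟩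
  | gaussianPoisson {Y₁ Y₂ W : Type} [MeasurableSpace Y₁] [MeasurableSpace Y₂] [MeasurableSpace W]
      [Nonempty W] (ν₁ : Measure Y₁) [IsProbabilityMeasure ν₁] (ν₂ : Measure Y₂)
      [IsProbabilityMeasure ν₂] (κ : Measure W) [SFinite κ] (S₁ : Equiv.Perm Y₁) (V : W → W)
      (S₂ : Y₂ → Y₂) (mp : MeasurePreserving (Prod.map S₁ S₂) (ν₁.prod ν₂) (ν₁.prod ν₂)) :
      IsGaussian ν₁ S₁ → IsPoisson κ V ν₂ S₂ → HasRate κ V →
      Tower m 𝒢 ⟨Y₁ × Y₂, ν₁.prod ν₂, Prod.map S₁ S₂, mp⟩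
  | factor (𝕏 𝕐 : Sys) (π : 𝕏.X → 𝕐.X) : IsFactorMap 𝕏 𝕐 π → Tower m 𝒢 𝕏 → Tower m 𝒢 𝕐
  | tail (𝕏 𝕐 : Sys) (π : 𝕏.X → 𝕐.X) (𝒜 : MeasurableSpace 𝕏.X) : IsFactorMap 𝕏 𝕐 π →
      @IsExhaustive 𝕏.X 𝕏.ms 𝕏.μ 𝕏.T 𝒜 → TailFrom 𝕏 𝒜 π → Tower m 𝒢 𝕐 → Tower m 𝒢 𝕏
  | poisson (𝕏 : Sys) {Y W : Type} [MeasurableSpace Y] [MeasurableSpace W] (ν : Measure Y)
      [IsProbabilityMeasure ν] (κ : Measure W) [SFinite κ] (θ : 𝕏.X → W → W) (ψ : 𝕏.X → Y → Y)
      (mp : MeasurePreserving (sk 𝕏.T ψ) (𝕏.μ.prod ν) (𝕏.μ.prod ν)) :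
      IsPoissonExtension 𝕏.μ 𝕏.T κ θ ν ψ → SummableOverlaps 𝕏.μ 𝕏.T κ θ → Tower m 𝒢 𝕏 →
      Tower m 𝒢 ⟨𝕏.X × Y, 𝕏.μ.prod ν, sk 𝕏.T ψ, mp⟩
  | mixing (𝕏 : Sys) {Y : Type} [MeasurableSpace Y] (ν : Measure Y) [IsProbabilityMeasure ν]
      (ψ : 𝕏.X → Y → Y) (mp : MeasurePreserving (sk 𝕏.T ψ) (𝕏.μ.prod ν) (𝕏.μ.prod ν)) :
      IsMixingExtension (2 * m) 𝕏.μ 𝕏.T ν ψ → Tower m 𝒢 𝕏 →
      Tower m 𝒢 ⟨𝕏.X × Y, 𝕏.μ.prod ν, sk 𝕏.T ψ, mp⟩
  | toral (𝕏 : Sys) {d : ℕ} (A : Matrix (Fin d) (Fin d) ℤ) (φ : 𝕏.X → UnitAddTorus (Fin d))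
      (mp : MeasurePreserving (skewMap A 𝕏.T φ) (𝕏.μ.prod (haarT d)) (𝕏.μ.prod (haarT d))) :
      A.det ≠ 0 → Measurable φ → (Indep (fun j : Fin m => A ^ ((j : ℕ) + 1)) ∨ ∀ y, φ y = 0) →
      (∀ q : ℕ, 1 ≤ q → Tower m 𝒢 (𝕏.pow q)) →
      Tower m 𝒢 ⟨𝕏.X × UnitAddTorus (Fin d), 𝕏.μ.prod (haarT d), skewMap A 𝕏.T φ, mp⟩
  | limit (𝕏 : Sys) (𝕐 : ℕ → Sys) (π : ∀ i, 𝕏.X → (𝕐 i).X) : (∀ i, IsFactorMap 𝕏 (𝕐 i) (π i)) →
      (∀ i, (𝕐 i).ms.comap (π i) ≤ (𝕐 (i + 1)).ms.comap (π (i + 1))) →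
      (∀ B, MeasurableSet B → ∀ ε : ℝ, 0 < ε → ∃ (i : ℕ) (D : Set (𝕐 i).X),
        MeasurableSet D ∧ 𝕏.μ.real (B ∆ (π i ⁻¹' D)) ≤ ε) →
      (∀ i, Tower m 𝒢 (𝕐 i)) → Tower m 𝒢 𝕏
  | mixture (𝕏 : Sys) {Ω : Type} [MeasurableSpace Ω] (P : Measure Ω) (κ : Kernel Ω 𝕏.X)
      [IsMarkovKernel κ] (N : Set Ω) (mp : ∀ ω, MeasurePreserving 𝕏.T (κ ω) (κ ω)) :
      𝕏.μ = P.bind κ → P N = 0 → (∀ ω, ω ∉ N → Tower m 𝒢 ⟨𝕏.X, κ ω, 𝕏.T, mp ω⟩) → Tower m 𝒢 𝕏
  | root (𝕏 : Sys) (k : ℕ) : 1 ≤ k → Tower m 𝒢 (𝕏.pow k) → Tower m 𝒢 𝕏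

open Run7.h694.TW (Cl)

theorem cl_of {m : ℕ} {𝕏 : Sys} (h : Converges m 𝕏) : Cl m 𝕏.μ 𝕏.T := by
  refine Cl.of_convAll fun g hg hb => h g fun j => ?_
  obtain ⟨C, hC⟩ := hb j
  exact memLp_top_of_bound (hg j).aestronglyMeasurable C (Eventually.of_forall hC)

theorem cl_tower {m : ℕ} {𝒢 : Sys → Prop} (h𝒢 : ∀ 𝕏, 𝒢 𝕏 → Converges m 𝕏) {𝕏 : Sys}
    (h : Tower m 𝒢 𝕏) : Cl m 𝕏.μ 𝕏.T := by
  induction h with
  | ground 𝕏 h => exact cl_of (h𝒢 𝕏 h)
  | affine μ T mp h => exact Cl.affine h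
  | gaussianPoisson ν₁ ν₂ κ S₁ V S₂ mp h₁ h₂ h₃ =>
    exact fun g hg => Pool.Agent.TH739.Poi.conv_prod h₁ h₂ (Or.inl h₃) hg
  | factor 𝕏 𝕐 π hπ _ ih => exact ih.factor 𝕏.mp 𝕐.mp.measurable hπ.mp hπ.equi
  | tail 𝕏 𝕐 π 𝒜 hπ h𝒜 ht _ ih =>
    exact Cl.tail (𝒜 := 𝒜) (mV := 𝕏.ms) 𝕏.mp h𝒜 𝕐.mp hπ.mp hπ.equi ht ih
  | poisson 𝕏 ν κ θ ψ mp h ho _ ih => exact fun g hg => h.cvg ho ih.convAll hg
  | mixing 𝕏 ν ψ mp h _ ih => exact fun g hg => h.cvg le_rfl ih.convAll hg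
  | toral 𝕏 A φ mp hA hφ hI _ ih => exact Cl.toral hA 𝕏.mp hφ hI ih
  | limit 𝕏 𝕐 π hπ hmono hgen _ ih =>
    exact Cl.limit 𝕏.mp (fun i => (𝕐 i).mp.measurable) (fun i => (hπ i).mp) (fun i => (hπ i).equi)
      hmono hgen ih
  | mixture 𝕏 P κ N mp hμ hN _ ih => exact Cl.mixture hμ 𝕏.mp.measurable hN ih
  | root 𝕏 k hk _ ih => exact Cl.root 𝕏.mp hk ih

/-- **Towers of extensions.** Let `𝒢` be a class of systems for which the averages
`(1/N) ∑_{n=1}^N f_1 (T^n x) f_2 (T^{2n} x) ⋯ f_m (T^{mn} x)` of functions in `L^∞` converge almost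
everywhere (`m = 3` is the question; for instance `𝒢` empty). Then they converge almost everywhere for
every system of `Tower m 𝒢`, that is for every system which is obtained from the systems of `𝒢`, from
affine bijections of compact Hausdorff abelian groups and from products of Gaussian systems and Poisson
suspensions with logarithmic rate by iterating, in any order: factors, Kolmogorov extensions, Poisson
extensions with summable overlaps, extensions with fibres mixing of order `2 m` with summable rates,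
toral skew products over systems all powers of which are in the class, inverse limits, mixtures and
roots. -/
theorem result (m : ℕ) (𝒢 : Sys → Prop) (h𝒢 : ∀ 𝕏, 𝒢 𝕏 → Converges m 𝕏) (𝕏 : Sys)
    (h : Tower m 𝒢 𝕏) : Converges m 𝕏 := fun _ hf => (cl_tower h𝒢 h).memLp 𝕏.mp hf

end Pool.Agent.Results.MP_9721b5_an.TowersOfExtensions
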